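import Mathlib

/-!
# Definitions: `ℵ₁`-dense linear orders, LOTS embeddings, Baumgartner's axiom, Countryman lines
-/

set_option autoImplicit false

open Set Cardinal

namespace Pool.Agent.R591.LB

/-- `ω₁` -/
abbrev W : Type := (ℵ₁ : Cardinal.{0}).ord.ToType

/-- There is a LOTS embedding of `A` into `B`: an order preserving injection which is continuous
for the open interval topologies. -/
def LotsEmb (A B : Type) [LinearOrder A] [LinearOrder B] : Prop :=
  ∃ f : A → B, StrictMono f ∧ @Continuous A B (Preorder.topology A) (Preorder.topology B) f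

/-- The linear order `L` is `ℵ₁`-dense: it has at least two points and all its nonempty open
intervals have cardinality exactly `ℵ₁`. -/
def AlephOneDense (L : Type) [LinearOrder L] : Prop :=
  (∃ a b : L, a < b) ∧ ∀ a b : L, a < b → #(Ioo a b) = ℵ₁

/-- All points of `L` have countable cofinality and countable coinitiality, wherever these are
defined: if `x` is the supremum of the set of its predecessors, then `x` is the supremum of a
strictly increasing sequence of length `ω`, and similarly on the right. -/
def CountableCharacter (L : Type) [LinearOrder L] : Prop :=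
  ∀ x : L,
    ((Iio x).Nonempty → IsLUB (Iio x) x → ∃ s : ℕ → L, StrictMono s ∧ IsLUB (range s) x) ∧
    ((Ioi x).Nonempty → IsGLB (Ioi x) x → ∃ s : ℕ → L, StrictAnti s ∧ IsGLB (range s) x)

/-- The class `𝒞` of `ℵ₁`-dense linear orders with countable character. -/
def InClass (L : Type) [LinearOrder L] : Prop := AlephOneDense L ∧ CountableCharacter L

/-- `X` is an `ℵ₁`-dense set of reals: it meets every open interval of the real line in exactly
`ℵ₁` points. -/
def DenseReals (X : Set ℝ) : Prop := ∀ a b : ℝ, a < b → #(X ∩ Ioo a b : Set ℝ) = ℵ₁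

/-- Baumgartner's axiom: any two `ℵ₁`-dense sets of reals are order isomorphic. -/
def BA : Prop := ∀ X Y : Set ℝ, DenseReals X → DenseReals Y → Nonempty (X ≃o Y)

/-- `C` is a Countryman line: it has cardinality `ℵ₁` and its square, with the coordinatewise
order, is a union of countably many chains. -/
def Countryman (C : Type) [LinearOrder C] : Prop :=
  #C = ℵ₁ ∧ ∃ K : ℕ → Set (C × C), (∀ p, ∃ n, p ∈ K n) ∧ ∀ n, ∀ p ∈ K n, ∀ q ∈ K n, p ≤ q ∨ q ≤ p

/-- `A` is an Aronszajn line: it has cardinality `ℵ₁` and no suborder isomorphic to `ω₁`, to its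
reverse, or to an uncountable set of reals. -/
def Aronszajn (A : Type) [LinearOrder A] : Prop :=
  #A = ℵ₁ ∧ IsEmpty (W ↪o A) ∧ IsEmpty (Wᵒᵈ ↪o A) ∧ ∀ X : Set ℝ, ¬ X.Countable → IsEmpty (X ↪o A)

/-- Moore's theorem for Aronszajn lines (a consequence of the proper forcing axiom): there is
a Countryman line `C` such that every Aronszajn line contains a copy of `C` or of its reverse. -/
def MooreBasis : Prop :=
  ∃ (C : Type) (_ : LinearOrder C), Countryman C ∧
    ∀ (A : Type) [LinearOrder A], Aronszajn A → Nonempty (C ↪o A) ∨ Nonempty (Cᵒᵈ ↪o A)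

end Pool.Agent.R591.LB
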