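import Pool.Agent.R591.LB.Real

/-!
# A six element basis
-/

set_option autoImplicit false

open Set Cardinal Filter Topology

namespace Pool.Agent.R591.LB

open Pool.Agent.R591.BT (W_Iio W_Iic W_bdd W_unc)

theorem mk_W : #W = ℵ₁ := Cardinal.mk_ord_toType _

variable {L : Type} [LinearOrder L]

/-- There are `ℵ₁` pairwise disjoint nonempty open intervals in `(a, b)` -/
def NC (a b : L) : Prop :=
  ∃ u v : W → L, (∀ i, a < u i ∧ u i < v i ∧ v i < b) ∧ ∀ i j, i ≠ j → v i ≤ u j ∨ v j ≤ u i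

theorem exists_W_inj {ι : Type} {s : Set ι} (hs : ¬ s.Countable) :
    ∃ f : W → ι, Function.Injective f ∧ ∀ i, f i ∈ s := by
  have h : #W ≤ #s := by
    rw [mk_W]
    exact al1_le hs
  obtain ⟨f⟩ := h
  exact ⟨fun i => f i, fun i j hij => f.injective (Subtype.ext hij), fun i => (f i).2⟩

theorem NC_of_family {a b : L} {ι : Type} (s : Set ι) (hs : ¬ s.Countable) (u v : ι → L)
    (h1 : ∀ i ∈ s, a < u i ∧ u i < v i ∧ v i < b)
    (h2 : ∀ i ∈ s, ∀ j ∈ s, i ≠ j → v i ≤ u j ∨ v j ≤ u i) : NC a b := by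
  obtain ⟨f, hf, hfs⟩ := exists_W_inj hs
  exact ⟨u ∘ f, v ∘ f, fun i => h1 _ (hfs i), fun i j hij => h2 _ (hfs i) _ (hfs j) (hf.ne hij)⟩

/-! ### the five types -/

/-- a linear order of size `ℵ₁` has a suborder of one of the five types -/
theorem five' (hBA : BA) {X₀ : Set ℝ} (hX₀ : DenseReals X₀) {C : Type} [LinearOrder C]
    (hC : ∀ (A : Type) [LinearOrder A], Aronszajn A → Nonempty (C ↪o A) ∨ Nonempty (Cᵒᵈ ↪o A))
    (A : Type) [LinearOrder A] (hA : #A = ℵ₁) :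
    (∃ g : W → A, StrictMono g) ∨ (∃ g : Wᵒᵈ → A, StrictMono g) ∨
    (∃ g : X₀ → A, StrictMono g) ∨ (∃ g : C → A, StrictMono g) ∨
    (∃ g : Cᵒᵈ → A, StrictMono g) := by
  have key : ∀ (Z : Type) [LinearOrder Z], Nonempty (Z ↪o A) → ∃ g : Z → A, StrictMono g := by
    rintro Z _ ⟨e⟩
    exact ⟨e, e.strictMono⟩
  by_cases h1 : Nonempty (W ↪o A)
  · exact Or.inl (key W h1)
  by_cases h2 : Nonempty (Wᵒᵈ ↪o A)
  · exact Or.inr (Or.inl (key _ h2))
  by_cases h3 : ∃ X : Set ℝ, ¬ X.Countable ∧ Nonempty (X ↪o A)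
  · obtain ⟨X, hX, hXA⟩ := h3
    obtain ⟨g, hg⟩ := key _ hXA
    obtain ⟨k, hk⟩ := thin hBA hX₀ hX
    exact Or.inr (Or.inr (Or.inl ⟨g ∘ k, fun z z' h => hg (hk h)⟩))
  have hA : Aronszajn A := ⟨hA, not_nonempty_iff.1 h1, not_nonempty_iff.1 h2, fun X hX => by
    rw [← not_nonempty_iff]
    exact fun h => h3 ⟨X, hX, h⟩⟩
  rcases hC A hA with h | h
  · exact Or.inr (Or.inr (Or.inr (Or.inl (key _ h))))
  · exact Or.inr (Or.inr (Or.inr (Or.inr (key _ h))))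

/-- The injective sequence `x` has a subset of one of the five types -/
theorem five (hBA : BA) {X₀ : Set ℝ} (hX₀ : DenseReals X₀) {C : Type} [LinearOrder C]
    (hC : ∀ (A : Type) [LinearOrder A], Aronszajn A → Nonempty (C ↪o A) ∨ Nonempty (Cᵒᵈ ↪o A))
    (x : W → L) (hx : Function.Injective x) :
    (∃ g : W → W, StrictMono (x ∘ g)) ∨ (∃ g : Wᵒᵈ → W, StrictMono (x ∘ g)) ∨
    (∃ g : X₀ → W, StrictMono (x ∘ g)) ∨ (∃ g : C → W, StrictMono (x ∘ g)) ∨
    (∃ g : Cᵒᵈ → W, StrictMono (x ∘ g)) := by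
  rcases @five' hBA X₀ hX₀ C _ hC W (LinearOrder.lift' x hx) mk_W with
    ⟨g, hg⟩ | ⟨g, hg⟩ | ⟨g, hg⟩ | ⟨g, hg⟩ | ⟨g, hg⟩
  · exact Or.inl ⟨g, fun z z' h => hg h⟩
  · exact Or.inr (Or.inl ⟨g, fun z z' h => hg h⟩)
  · exact Or.inr (Or.inr (Or.inl ⟨g, fun z z' h => hg h⟩))
  · exact Or.inr (Or.inr (Or.inr (Or.inl ⟨g, fun z z' h => hg h⟩)))
  · exact Or.inr (Or.inr (Or.inr (Or.inr ⟨g, fun z z' h => hg h⟩)))

/-- a dense order containing a Countryman line is not ccc -/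
theorem NC_of_countryman {C : Type} [LinearOrder C] (hC : Countryman C) {a b : L} (x : C → L)
    (hx : StrictMono x ∨ StrictAnti x) (hab : ∀ c, a < x c ∧ x c < b) : NC a b := by
  obtain ⟨hcard, K, hK, hch⟩ := hC
  have hunc : ¬ (univ : Set C).Countable := by
    apply al1_unc
    rw [mk_univ, hcard]
  let E : ℕ → Set C := fun n => {y | ∃ z z', z < z' ∧ (y, z) ∈ K n ∧ (y, z') ∈ K n}
  have hE : ∃ n, ¬ (E n).Countable := by
    by_contra hcon
    push Not at hcon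
    have h1 : ∃ y, y ∉ ⋃ n, E n := by
      by_contra h2
      push Not at h2
      exact hunc ((countable_iUnion hcon).mono fun y _ => h2 y)
    obtain ⟨y, hy⟩ := h1
    choose ν hν using fun z => hK (y, z)
    have hinj : Function.Injective ν := by
      intro z z' h
      by_contra hne
      apply hy
      rcases lt_or_gt_of_ne hne with h2 | h2
      · exact mem_iUnion.2 ⟨ν z, z, z', h2, hν z, h ▸ hν z'⟩
      · exact mem_iUnion.2 ⟨ν z, z', z, h2, h ▸ hν z', hν z⟩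
    have := hinj.countable
    exact hunc (Set.to_countable _)
  obtain ⟨n, hn⟩ := hE
  have hch2 : ∀ y : C, ∃ z z' : C, y ∈ E n → z < z' ∧ (y, z) ∈ K n ∧ (y, z') ∈ K n := by
    intro y
    by_cases hy : y ∈ E n
    · obtain ⟨z, z', h⟩ := hy
      exact ⟨z, z', fun _ => h⟩
    · exact ⟨y, y, fun h => absurd h hy⟩
  choose p q hpq using hch2
  have hdis : ∀ y ∈ E n, ∀ w ∈ E n, y < w → q y ≤ p w := by
    intro y hy w hw hyw
    rcases hch n _ (hpq y hy).2.2 _ (hpq w hw).2.1 with h | h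
    · exact h.2
    · exact absurd h.1 (not_le.2 hyw)
  rcases hx with hx | hx
  · refine NC_of_family (E n) hn (fun y => x (p y)) (fun y => x (q y)) (fun y hy =>
      ⟨(hab _).1, hx (hpq y hy).1, (hab _).2⟩) ?_
    intro y hy w hw hne
    rcases lt_or_gt_of_ne hne with h | h
    · exact Or.inl (hx.monotone (hdis y hy w hw h))
    · exact Or.inr (hx.monotone (hdis w hw y hy h))
  · refine NC_of_family (E n) hn (fun y => x (q y)) (fun y => x (p y)) (fun y hy =>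
      ⟨(hab _).1, hx (hpq y hy).1, (hab _).2⟩) ?_
    intro y hy w hw hne
    rcases lt_or_gt_of_ne hne with h | h
    · exact Or.inr (hx.antitone (hdis y hy w hw h))
    · exact Or.inl (hx.antitone (hdis w hw y hy h))

theorem exists_sc : ∃ sc : W → W, ∀ i, i < sc i ∧ ∀ j, i < j → sc i ≤ j := by
  have : ∀ i : W, ∃ k, i < k ∧ ∀ j, i < j → k ≤ j := by
    intro i
    obtain ⟨δ, hδ⟩ := W_bdd {i} (countable_singleton i)
    have hne : (Ioi i : Set W).Nonempty := ⟨δ, hδ i rfl⟩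
    exact ⟨wellFounded_lt.min _ hne, wellFounded_lt.min_mem _ hne,
      fun j hj => not_lt.1 (wellFounded_lt.not_lt_min _ hj)⟩
  choose sc h using this
  exact ⟨sc, h⟩

/-- a ccc interval is separable -/
theorem separable_of_ccc (hd : ∀ a b : L, a < b → ∃ c, a < c ∧ c < b)
    (hBA : BA) {X₀ : Set ℝ} (hX₀ : DenseReals X₀) {C : Type} [LinearOrder C]
    (hCC : Countryman C)
    (hC : ∀ (A : Type) [LinearOrder A], Aronszajn A → Nonempty (C ↪o A) ∨ Nonempty (Cᵒᵈ ↪o A))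
    {a b : L} (hn : ¬ NC a b) :
    ∃ D : Set L, D.Countable ∧ ∀ x y, a < x → x < y → y < b → ∃ d ∈ D, x < d ∧ d < y := by
  by_contra hcon
  push Not at hcon
  have hcon' : ∀ D : Set L, ∃ p : L × L, D.Countable →
      a < p.1 ∧ p.1 < p.2 ∧ p.2 < b ∧ ∀ d ∈ D, ¬ (p.1 ≤ d ∧ d ≤ p.2) := by
    intro D
    by_cases hD : D.Countable
    · obtain ⟨x, y, h1, h2, h3, h4⟩ := hcon D hD
      obtain ⟨x', hx1, hx2⟩ := hd x y h2
      obtain ⟨y', hy1, hy2⟩ := hd x' y hx2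
      refine ⟨(x', y'), fun _ => ⟨h1.trans hx1, hy1, hy2.trans h3, ?_⟩⟩
      rintro d hdD ⟨h5, h6⟩
      exact absurd (h4 d hdD (hx1.trans_le h5)) (not_le.2 (h6.trans_lt hy2))
    · exact ⟨(a, a), fun h => absurd h hD⟩
  choose F hF using hcon'
  let G : W → L × L := wellFounded_lt.fix (fun ξ G => F (⋃ η : Iio ξ, {(G η η.2).1, (G η η.2).2}))
  have hG : ∀ ξ : W, G ξ = F (⋃ η : Iio ξ, {(G (η : W)).1, (G (η : W)).2}) := fun ξ =>
    wellFounded_lt.fix_eq _ ξ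
  have hGc : ∀ ξ : W, (⋃ η : Iio ξ, {(G (η : W)).1, (G (η : W)).2} : Set L).Countable := by
    intro ξ
    have := (W_Iio ξ).to_subtype
    exact countable_iUnion fun η => (Set.toFinite _).countable
  have h1 : ∀ ξ, a < (G ξ).1 ∧ (G ξ).1 < (G ξ).2 ∧ (G ξ).2 < b ∧
      ∀ η < ξ, ¬ ((G ξ).1 ≤ (G η).1 ∧ (G η).1 ≤ (G ξ).2) := by
    intro ξ
    obtain ⟨h1, h2, h3, h4⟩ := hF _ (hGc ξ)
    rw [← hG ξ] at h1 h2 h3 h4
    refine ⟨h1, h2, h3, fun η hη => h4 _ (mem_iUnion.2 ⟨⟨η, hη⟩, Or.inl rfl⟩)⟩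
  let x : W → L := fun ξ => (G ξ).1
  have hxinj : Function.Injective x := by
    intro ξ η h
    by_contra hne
    rcases lt_or_gt_of_ne hne with h2 | h2
    · exact (h1 η).2.2.2 ξ h2 ⟨h.symm.le, h.trans_le (h1 η).2.1.le⟩
    · exact (h1 ξ).2.2.2 η h2 ⟨h.le, h.symm.trans_le (h1 ξ).2.1.le⟩
  have hxab : ∀ ξ, a < x ξ ∧ x ξ < b := fun ξ => ⟨(h1 ξ).1, (h1 ξ).2.1.trans (h1 ξ).2.2.1⟩
  obtain ⟨sc, hsc⟩ := exists_sc
  apply hn
  rcases five hBA hX₀ hC x hxinj with ⟨g, hg⟩ | ⟨g, hg⟩ | ⟨g, hg⟩ | ⟨g, hg⟩ | ⟨g, hg⟩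
  · refine ⟨fun i => x (g i), fun i => x (g (sc i)), fun i => ⟨(hxab _).1, hg (hsc i).1,
      (hxab _).2⟩, ?_⟩
    intro i j hij
    rcases lt_or_gt_of_ne hij with h | h
    · exact Or.inl (hg.monotone ((hsc i).2 j h))
    · exact Or.inr (hg.monotone ((hsc j).2 i h))
  · refine ⟨fun i => x (g (OrderDual.toDual (sc i))), fun i => x (g (OrderDual.toDual i)),
      fun i => ⟨(hxab _).1, hg (OrderDual.toDual_lt_toDual.2 (hsc i).1), (hxab _).2⟩, ?_⟩
    intro i j hij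
    rcases lt_or_gt_of_ne hij with h | h
    · exact Or.inr (hg.monotone (OrderDual.toDual_le_toDual.2 ((hsc i).2 j h)))
    · exact Or.inl (hg.monotone (OrderDual.toDual_le_toDual.2 ((hsc j).2 i h)))
  · -- real type
    have hex : ∀ p q : ℚ, ∃ d : X₀, p < q → (p : ℝ) < d ∧ (d : ℝ) < q := by
      intro p q
      by_cases hpq : p < q
      · have h2 : #(X₀ ∩ Ioo (p : ℝ) q : Set ℝ) ≠ 0 := by
          rw [hX₀ p q (by exact_mod_cast hpq)]
          exact (Cardinal.aleph_pos 1).ne'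
        obtain ⟨c, hc⟩ := Cardinal.mk_ne_zero_iff.1 h2
        exact ⟨⟨c, hc.1⟩, fun _ => hc.2⟩
      · have h2 : #(X₀ ∩ Ioo (0 : ℝ) 1 : Set ℝ) ≠ 0 := by
          rw [hX₀ 0 1 one_pos]
          exact (Cardinal.aleph_pos 1).ne'
        obtain ⟨c, hc⟩ := Cardinal.mk_ne_zero_iff.1 h2
        exact ⟨⟨c, hc.1⟩, fun h => absurd h hpq⟩
    choose d hd' using hex
    obtain ⟨δ, hδ⟩ := W_bdd (range fun pq : ℚ × ℚ => g (d pq.1 pq.2)) (countable_range _)
    have hginj : Function.Injective g := fun z z' h => hg.injective (congrArg x h)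
    have hunc : ¬ {z : X₀ | δ < g z}.Countable := by
      intro hc
      have h2 : ({z : X₀ | ¬ δ < g z}).Countable := by
        have h3 : {z : X₀ | ¬ δ < g z} = g ⁻¹' (Iic δ) := by
          ext z; simp
        rw [h3]
        exact (W_Iic δ).preimage hginj
      have h4 : (univ : Set X₀).Countable := by
        refine (hc.union h2).mono fun z _ => ?_
        by_cases hz : δ < g z
        · exact Or.inl hz
        · exact Or.inr hz
      refine al1_unc (α := X₀) (s := univ) ?_ h4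
      rw [mk_univ, mk_denseReals hX₀]
    have hdis : ∀ z : X₀, δ < g z → ∀ z' : X₀, z < z' → (G (g z)).2 ≤ x (g z') := by
      intro z hz z' hzz
      obtain ⟨p, hp1, hp2⟩ := exists_rat_btwn (show (z : ℝ) < z' from hzz)
      obtain ⟨q, hq1, hq2⟩ := exists_rat_btwn hp2
      have hpq : p < q := by exact_mod_cast hq1
      obtain ⟨h5, h6⟩ := hd' p q hpq
      have h7 : z < d p q := show (z : ℝ) < d p q from hp1.trans h5
      have h8 : d p q < z' := show ((d p q : X₀) : ℝ) < z' from h6.trans hq2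
      have h9 := (h1 (g z)).2.2.2 (g (d p q)) ((hδ _ ⟨(p, q), rfl⟩).trans hz)
      by_contra hcon2
      exact h9 ⟨(hg h7).le, ((hg h8).trans (not_le.1 hcon2)).le⟩
    refine NC_of_family {z : X₀ | δ < g z} hunc (fun z => x (g z)) (fun z => (G (g z)).2)
      (fun z _ => ⟨(h1 _).1, (h1 _).2.1, (h1 _).2.2.1⟩) ?_
    intro z hz z' hz' hne
    rcases lt_or_gt_of_ne hne with h | h
    · exact Or.inl (hdis z hz z' h)
    · exact Or.inr (hdis z' hz' z h)
  · exact NC_of_countryman hCC (x ∘ g) (Or.inl hg) fun c => hxab _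
  · exact NC_of_countryman hCC (fun c => x (g (OrderDual.toDual c)))
      (Or.inr fun c c' h => hg (OrderDual.toDual_lt_toDual.2 h)) fun c => hxab _

/-! ### everywhere not ccc -/

theorem Cp_of {a b : L} {u v : W → L} (h1 : ∀ i, a < u i ∧ u i < v i ∧ v i < b)
    (h2 : ∀ i j, i ≠ j → v i ≤ u j ∨ v j ≤ u i) {Z : Type} [LinearOrder Z] {g : Z → W}
    (hg : StrictMono (u ∘ g)) : Cp L Z a b := by
  refine ⟨fun z => u (g z), fun z => v (g z), fun z => h1 _, ?_⟩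
  intro z z' h
  have h3 : u (g z) < u (g z') := hg h
  rcases h2 (g z) (g z') (fun h4 => by rw [h4] at h3; exact lt_irrefl _ h3) with h4 | h4
  · exact h4
  · exact absurd (((h1 (g z')).2.1.trans_le h4).trans h3) (lt_irrefl _)

theorem Cp_of_NC (hBA : BA) {X₀ : Set ℝ} (hX₀ : DenseReals X₀) {C : Type} [LinearOrder C]
    (hC : ∀ (A : Type) [LinearOrder A], Aronszajn A → Nonempty (C ↪o A) ∨ Nonempty (Cᵒᵈ ↪o A))
    {a b : L} (h : NC a b) :
    Cp L W a b ∨ Cp L Wᵒᵈ a b ∨ Cp L X₀ a b ∨ Cp L C a b ∨ Cp L Cᵒᵈ a b := by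
  obtain ⟨u, v, h1, h2⟩ := h
  have hu : Function.Injective u := by
    intro i j hij
    by_contra hne
    rcases h2 i j hne with h | h
    · exact absurd ((h1 i).2.1.trans_le h) (by rw [hij]; exact lt_irrefl _)
    · exact absurd ((h1 j).2.1.trans_le h) (by rw [hij]; exact lt_irrefl _)
  rcases five hBA hX₀ hC u hu with ⟨g, hg⟩ | ⟨g, hg⟩ | ⟨g, hg⟩ | ⟨g, hg⟩ | ⟨g, hg⟩
  · exact Or.inl (Cp_of h1 h2 hg)
  · exact Or.inr (Or.inl (Cp_of h1 h2 hg))
  · exact Or.inr (Or.inr (Or.inl (Cp_of h1 h2 hg)))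
  · exact Or.inr (Or.inr (Or.inr (Or.inl (Cp_of h1 h2 hg))))
  · exact Or.inr (Or.inr (Or.inr (Or.inr (Cp_of h1 h2 hg))))

theorem localize (n : ℕ) (P : ℕ → L → L → Prop)
    (hP : ∀ i a b a' b', P i a' b' → a ≤ a' → b' ≤ b → P i a b) (a₀ b₀ : L) (h0 : a₀ < b₀)
    (h : ∀ a b, a₀ ≤ a → a < b → b ≤ b₀ → ∃ i < n, P i a b) :
    ∃ i < n, ∃ a b, a < b ∧ ∀ a' b', a ≤ a' → a' < b' → b' ≤ b → P i a' b' := by
  induction n generalizing a₀ b₀ with
  | zero =>
    obtain ⟨i, hi, -⟩ := h a₀ b₀ le_rfl h0 le_rfl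
    exact absurd hi (Nat.not_lt_zero i)
  | succ n ih =>
    by_cases hn : ∀ a b, a₀ ≤ a → a < b → b ≤ b₀ → P n a b
    · exact ⟨n, Nat.lt_succ_self n, a₀, b₀, h0, hn⟩
    · push Not at hn
      obtain ⟨a, b, h1, h2, h3, h4⟩ := hn
      obtain ⟨i, hi, h5⟩ := ih a b h2 (by
        intro a' b' h5 h6 h7
        obtain ⟨i, hi, h8⟩ := h a' b' (h1.trans h5) h6 (h7.trans h3)
        rcases Nat.lt_succ_iff_lt_or_eq.1 hi with h9 | h9
        · exact ⟨i, h9, h8⟩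
        · subst h9
          exact absurd (hP _ _ _ _ _ h8 h5 h7) h4)
      exact ⟨i, Nat.lt_succ_of_lt hi, h5⟩

theorem Cp.mono {Z : Type} [LinearOrder Z] {a b a' b' : L} (h : Cp L Z a' b') (ha : a ≤ a')
    (hb : b' ≤ b) : Cp L Z a b := by
  obtain ⟨u, v, h1, h2⟩ := h
  exact ⟨u, v, fun z => ⟨ha.trans_lt (h1 z).1, (h1 z).2.1, (h1 z).2.2.trans_le hb⟩, h2⟩

/-- the main theorem, for fixed `X₀`, `C` -/
theorem main (hBA : BA) {X₀ : Set ℝ} (hX₀ : DenseReals X₀) {C : Type} [LinearOrder C]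
    (hCC : Countryman C)
    (hC : ∀ (A : Type) [LinearOrder A], Aronszajn A → Nonempty (C ↪o A) ∨ Nonempty (Cᵒᵈ ↪o A))
    (hL : InClass L) :
    LotsEmb X₀ L ∨ LotsEmb (Tr W) L ∨ LotsEmb (Tr Wᵒᵈ) L ∨ LotsEmb (Tr X₀) L ∨ LotsEmb (Tr C) L ∨
      LotsEmb (Tr Cᵒᵈ) L := by
  by_cases hcc : ∃ a b : L, a < b ∧ ¬ NC a b
  · left
    obtain ⟨a, b, hab, hn⟩ := hcc
    obtain ⟨D, hD, hDd⟩ := separable_of_ccc (fun a b h => hL.dense h) hBA hX₀ hCC hC hn
    have i1 : DenselyOrdered (Ioo a b) := ⟨fun x y h => by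
      obtain ⟨c, hc1, hc2⟩ := hL.dense (show (x : L) < y from h)
      exact ⟨⟨c, x.2.1.trans hc1, hc2.trans y.2.2⟩, hc1, hc2⟩⟩
    have i2 : NoMinOrder (Ioo a b) := ⟨fun x => by
      obtain ⟨c, hc1, hc2⟩ := hL.dense x.2.1
      exact ⟨⟨c, hc1, hc2.trans x.2.2⟩, hc2⟩⟩
    have i3 : NoMaxOrder (Ioo a b) := ⟨fun x => by
      obtain ⟨c, hc1, hc2⟩ := hL.dense x.2.2
      exact ⟨⟨c, x.2.1.trans hc1, hc2⟩, hc1⟩⟩
    have i4 : Nonempty (Ioo a b) := by
      obtain ⟨c, hc1, hc2⟩ := hL.dense hab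
      exact ⟨⟨c, hc1, hc2⟩⟩
    obtain ⟨Y, hY, ⟨e⟩⟩ := exists_real_iso (I := Ioo a b) (Subtype.val ⁻¹' D)
      (hD.preimage Subtype.val_injective) (by
        intro x y hxy
        obtain ⟨d, hd, h1, h2⟩ := hDd x y x.2.1 hxy y.2.2
        exact ⟨⟨d, x.2.1.trans h1, h2.trans y.2.2⟩, hd, h1, h2⟩) (by
        intro x y hxy
        rw [← hL.1.2 x y hxy]
        refine Cardinal.mk_congr ⟨fun z => ⟨z.1.1, z.2.1, z.2.2⟩,
          fun z => ⟨⟨z.1, x.2.1.trans z.2.1, z.2.2.trans y.2.2⟩, z.2.1, z.2.2⟩,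
          fun z => rfl, fun z => rfl⟩)
    obtain ⟨e'⟩ := hBA X₀ Y hX₀ hY
    let f : X₀ ≃o Ioo a b := e'.trans e.symm
    refine lotsEmb_of (fun x => (f x : L)) (fun x y h => f.strictMono h) ?_ ?_
    · intro x y hy
      obtain ⟨c, hc1, hc2⟩ := hL.dense (max_lt hy (f x).2.1)
      have hc3 : a < c := (le_max_right _ _).trans_lt hc1
      refine ⟨f.symm ⟨c, hc3, hc2.trans (f x).2.2⟩, ?_, ?_⟩
      · have h5 := f.symm.strictMono (show (⟨c, hc3, hc2.trans (f x).2.2⟩ : Ioo a b) < f x from hc2)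
        rwa [f.symm_apply_apply] at h5
      · simp only [OrderIso.apply_symm_apply]
        exact (le_max_left _ _).trans_lt hc1
    · intro x y hy
      obtain ⟨c, hc1, hc2⟩ := hL.dense (lt_min hy (f x).2.2)
      have hc3 : c < b := hc2.trans_le (min_le_right _ _)
      refine ⟨f.symm ⟨c, (f x).2.1.trans hc1, hc3⟩, ?_, ?_⟩
      · have h5 := f.symm.strictMono (show f x < (⟨c, (f x).2.1.trans hc1, hc3⟩ : Ioo a b) from hc1)
        rwa [f.symm_apply_apply] at h5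
      · simp only [OrderIso.apply_symm_apply]
        exact hc2.trans_le (min_le_left _ _)
  · right
    push Not at hcc
    obtain ⟨a₀, b₀, h0⟩ := hL.1.1
    let P : ℕ → L → L → Prop := fun i => match i with
      | 0 => Cp L W
      | 1 => Cp L Wᵒᵈ
      | 2 => Cp L X₀
      | 3 => Cp L C
      | _ => Cp L Cᵒᵈ
    obtain ⟨i, hi, a, b, hab, h⟩ := localize 5 P (by
      intro i a b a' b' h ha hb
      match i with
      | 0 => exact Cp.mono h ha hb
      | 1 => exact Cp.mono h ha hb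
      | 2 => exact Cp.mono h ha hb
      | 3 => exact Cp.mono h ha hb
      | (n + 4) => exact Cp.mono h ha hb) a₀ b₀ h0 (by
      intro a b _ hab _
      rcases Cp_of_NC hBA hX₀ hC (hcc a b hab) with h | h | h | h | h
      · exact ⟨0, by norm_num, h⟩
      · exact ⟨1, by norm_num, h⟩
      · exact ⟨2, by norm_num, h⟩
      · exact ⟨3, by norm_num, h⟩
      · exact ⟨4, by norm_num, h⟩)
    have n1 : Nonempty W := inferInstance
    have n2 : Nonempty X₀ := by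
      rw [← Cardinal.mk_ne_zero_iff, mk_denseReals hX₀]
      exact (Cardinal.aleph_pos 1).ne'
    have n3 : Nonempty C := by
      rw [← Cardinal.mk_ne_zero_iff, hCC.1]
      exact (Cardinal.aleph_pos 1).ne'
    match i with
    | 0 => exact Or.inl (embed_Tr hL hab h)
    | 1 => exact Or.inr (Or.inl (embed_Tr hL hab h))
    | 2 => exact Or.inr (Or.inr (Or.inl (embed_Tr hL hab h)))
    | 3 => exact Or.inr (Or.inr (Or.inr (Or.inl (embed_Tr hL hab h))))
    | (n + 4) => exact Or.inr (Or.inr (Or.inr (Or.inr (embed_Tr hL hab h))))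

end Pool.Agent.R591.LB
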