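import Pool.Agent.R591.LB.Tree
import Pool.Agent.R591.PL.Rigid

/-!
# Real types
-/

set_option autoImplicit false

open Set Cardinal Filter Topology

namespace Pool.Agent.R591.LB

theorem al1_unc {α : Type} {s : Set α} (h : #s = ℵ₁) : ¬ s.Countable := by
  intro hc
  have := hc.le_aleph0
  rw [h] at this
  exact absurd aleph0_lt_aleph_one (not_lt.2 this)

theorem al1_le {α : Type} {s : Set α} (h : ¬ s.Countable) : ℵ₁ ≤ #s := by
  rw [← succ_aleph0, Order.succ_le_iff]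
  by_contra hcon
  exact h ((Cardinal.le_aleph0_iff_set_countable).1 (not_lt.1 hcon))

/-- a separable dense order with intervals of size `ℵ₁` is an `ℵ₁`-dense set of reals -/
theorem exists_real_iso {I : Type} [LinearOrder I] [DenselyOrdered I] [NoMinOrder I] [NoMaxOrder I]
    [Nonempty I] (D : Set I) (hD : D.Countable) (hdense : ∀ a b : I, a < b → ∃ d ∈ D, a < d ∧ d < b)
    (hcard : ∀ a b : I, a < b → #(Ioo a b) = ℵ₁) :
    ∃ X : Set ℝ, DenseReals X ∧ Nonempty (I ≃o X) := by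
  have i1 : DenselyOrdered D := ⟨fun a b h => by
    obtain ⟨d, hd, h1, h2⟩ := hdense a b h
    exact ⟨⟨d, hd⟩, h1, h2⟩⟩
  have i2 : NoMinOrder D := ⟨fun a => by
    obtain ⟨b, hb⟩ := exists_lt (a : I)
    obtain ⟨d, hd, h1, h2⟩ := hdense b a hb
    exact ⟨⟨d, hd⟩, h2⟩⟩
  have i3 : NoMaxOrder D := ⟨fun a => by
    obtain ⟨b, hb⟩ := exists_gt (a : I)
    obtain ⟨d, hd, h1, h2⟩ := hdense a b hb
    exact ⟨⟨d, hd⟩, h1⟩⟩
  have i4 : Nonempty D := by
    obtain ⟨a⟩ := ‹Nonempty I›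
    obtain ⟨b, hb⟩ := exists_gt a
    obtain ⟨d, hd, -⟩ := hdense a b hb
    exact ⟨⟨d, hd⟩⟩
  have i5 : Countable D := hD.to_subtype
  obtain ⟨g⟩ := Order.iso_of_countable_dense ℚ D
  let S : I → Set ℝ := fun x => {r | ∃ q : ℚ, ((g q : D) : I) < x ∧ (q : ℝ) = r}
  let φ : I → ℝ := fun x => sSup (S x)
  have hg : ∀ {q q' : ℚ}, q < q' → ((g q : D) : I) < ((g q' : D) : I) := fun h => g.strictMono h
  have hsurj : ∀ a b : I, a < b → ∃ q : ℚ, a < ((g q : D) : I) ∧ ((g q : D) : I) < b := by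
    intro a b h
    obtain ⟨d, hd, h1, h2⟩ := hdense a b h
    refine ⟨g.symm ⟨d, hd⟩, ?_⟩
    simpa using ⟨h1, h2⟩
  have hub : ∀ (x : I) (q : ℚ), x ≤ ((g q : D) : I) → ∀ r ∈ S x, r ≤ q := by
    rintro x q h _ ⟨q', hq', rfl⟩
    have : q' < q := by
      by_contra hcon
      rcases (not_lt.1 hcon).lt_or_eq with h3 | h3
      · exact absurd (hg h3) (not_lt.2 (hq'.trans_le h).le)
      · rw [← h3] at hq'
        exact absurd hq' (not_lt.2 h)
    exact_mod_cast this.le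
  have hne : ∀ x, (S x).Nonempty := by
    intro x
    obtain ⟨y, hy⟩ := exists_lt x
    obtain ⟨q, -, hq⟩ := hsurj y x hy
    exact ⟨q, q, hq, rfl⟩
  have hbdd : ∀ x, BddAbove (S x) := by
    intro x
    obtain ⟨y, hy⟩ := exists_gt x
    obtain ⟨q, hq, -⟩ := hsurj x y hy
    exact ⟨q, hub x q hq.le⟩
  have hle : ∀ (x : I) (q : ℚ), x ≤ ((g q : D) : I) → φ x ≤ q := fun x q h =>
    csSup_le (hne x) (hub x q h)
  have hge : ∀ (x : I) (q : ℚ), ((g q : D) : I) < x → (q : ℝ) ≤ φ x := fun x q h =>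
    le_csSup (hbdd x) ⟨q, h, rfl⟩
  have hge' : ∀ (x : I) (q : ℚ), ((g q : D) : I) ≤ x → (q : ℝ) ≤ φ x := by
    intro x q h
    refine le_of_forall_lt fun c hc => ?_
    obtain ⟨q', h1, h2⟩ := exists_rat_btwn hc
    have h3 : q' < q := by exact_mod_cast h2
    exact h1.trans_le (hge x q' ((hg h3).trans_le h))
  have hmono : StrictMono φ := by
    intro x y h
    obtain ⟨q, h1, h2⟩ := hsurj x y h
    obtain ⟨q', h3, h4⟩ := hsurj _ _ h2
    have h5 : q < q' := by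
      by_contra hcon
      rcases (not_lt.1 hcon).lt_or_eq with h6 | h6
      · exact absurd (hg h6) (not_lt.2 h3.le)
      · rw [h6] at h3
        exact absurd h3 (lt_irrefl _)
    calc φ x ≤ q := hle x q h1.le
      _ < q' := by exact_mod_cast h5
      _ ≤ φ y := hge y q' h4
  refine ⟨range φ, ?_, ⟨(StrictMono.orderIso φ hmono)⟩⟩
  intro a b hab
  obtain ⟨q₀, hq₀⟩ := exists_rat_lt a
  obtain ⟨q₁, hq₁⟩ := exists_rat_gt b
  apply le_antisymm
  · have hsub : range φ ∩ Ioo a b ⊆ φ '' Ioo ((g q₀ : D) : I) ((g q₁ : D) : I) := by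
      rintro _ ⟨⟨x, rfl⟩, h1, h2⟩
      refine ⟨x, ⟨?_, ?_⟩, rfl⟩
      · by_contra hcon
        exact absurd (hle x q₀ (not_lt.1 hcon)) (not_le.2 (hq₀.trans h1))
      · by_contra hcon
        exact absurd (hge' x q₁ (not_lt.1 hcon)) (not_le.2 (h2.trans hq₁))
    have h4 : q₀ < q₁ := by exact_mod_cast hq₀.trans (hab.trans hq₁)
    calc #(range φ ∩ Ioo a b : Set ℝ) ≤ #(φ '' Ioo ((g q₀ : D) : I) ((g q₁ : D) : I)) :=
          mk_le_mk_of_subset hsub
      _ ≤ #(Ioo ((g q₀ : D) : I) ((g q₁ : D) : I)) := mk_image_le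
      _ = ℵ₁ := hcard _ _ (hg h4)
  · obtain ⟨q, h1, h2⟩ := exists_rat_btwn hab
    obtain ⟨q', h3, h4⟩ := exists_rat_btwn h2
    have h5 : q < q' := by exact_mod_cast h3
    rw [← hcard _ _ (hg h5)]
    refine Cardinal.mk_le_of_injective
      (f := fun x : Ioo ((g q : D) : I) ((g q' : D) : I) => (⟨φ x, ⟨⟨x, rfl⟩,
        h1.trans_le (hge x q x.2.1), (hle x q' x.2.2.le).trans_lt h4⟩⟩ :
          (range φ ∩ Ioo a b : Set ℝ))) ?_
    intro x y h
    exact Subtype.ext (hmono.injective (congrArg Subtype.val h))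

theorem countable_of_right {B : Set ℝ} (h : ∀ y ∈ B, (B ∩ Ioi y).Countable) : B.Countable := by
  let T : Set ℝ := {y ∈ B | ∀ r : ℚ, (r : ℝ) ≤ y → ¬ (B ∩ Iio (r : ℝ)).Nonempty}
  have hT : T.Subsingleton := by
    have key : ∀ y ∈ T, ∀ y' ∈ T, ¬ y < y' := by
      intro y hy y' hy' hlt
      obtain ⟨r, h1, h2⟩ := exists_rat_btwn hlt
      exact hy'.2 r h2.le ⟨y, hy.1, h1⟩
    intro y hy y' hy'
    exact le_antisymm (not_lt.1 (key y' hy' y hy)) (not_lt.1 (key y hy y' hy'))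
  have hsub : B ⊆ T ∪ ⋃ r : {r : ℚ // (B ∩ Iio (r : ℝ)).Nonempty}, B ∩ Ici ((r : ℚ) : ℝ) := by
    intro y hy
    by_cases hyT : y ∈ T
    · exact Or.inl hyT
    · right
      have : ∃ r : ℚ, (r : ℝ) ≤ y ∧ (B ∩ Iio (r : ℝ)).Nonempty := by
        by_contra hcon
        push Not at hcon
        refine hyT ⟨hy, fun r hr hne => ?_⟩
        exact absurd (hcon r hr) hne.ne_empty
      obtain ⟨r, h1, h2⟩ := this
      exact mem_iUnion.2 ⟨⟨r, h2⟩, hy, h1⟩
  refine (hT.countable.union (countable_iUnion ?_)).mono hsub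
  rintro ⟨r, y, hy, hyr⟩
  refine (h y hy).mono ?_
  rintro z ⟨hz, hz2⟩
  exact ⟨hz, (mem_Iio.1 hyr).trans_le hz2⟩

theorem countable_of_left {B : Set ℝ} (h : ∀ y ∈ B, (B ∩ Iio y).Countable) : B.Countable := by
  have h2 : (Neg.neg '' B).Countable := by
    apply countable_of_right
    rintro _ ⟨y, hy, rfl⟩
    refine ((h y hy).image Neg.neg).mono ?_
    rintro _ ⟨⟨z, hz, rfl⟩, hz2⟩
    exact ⟨z, ⟨hz, neg_lt_neg_iff.1 (mem_Ioi.1 hz2)⟩, rfl⟩
  refine (h2.image Neg.neg).mono ?_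
  intro z hz
  exact ⟨-z, ⟨z, hz, rfl⟩, neg_neg z⟩

/-- every uncountable set of reals contains a copy of every `ℵ₁`-dense set -/
theorem thin (hBA : BA) {X₀ : Set ℝ} (hX₀ : DenseReals X₀) {X : Set ℝ} (hX : ¬ X.Countable) :
    ∃ g : X₀ → X, StrictMono g := by
  obtain ⟨X₁, hX₁, hc⟩ := Cardinal.le_mk_iff_exists_subset.1 (al1_le hX)
  let BR : ℚ → Set ℝ := fun q => {y ∈ X₁ | y < q ∧ (X₁ ∩ Ioo y q).Countable}
  let BL : ℚ → Set ℝ := fun q => {y ∈ X₁ | (q : ℝ) < y ∧ (X₁ ∩ Ioo (q : ℝ) y).Countable}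
  have hBR : ∀ q, (BR q).Countable := by
    intro q
    apply countable_of_right
    rintro y ⟨hy, h1, h2⟩
    refine h2.mono ?_
    rintro z ⟨⟨hz, hz1, -⟩, hz2⟩
    exact ⟨hz, hz2, hz1⟩
  have hBL : ∀ q, (BL q).Countable := by
    intro q
    apply countable_of_left
    rintro y ⟨hy, h1, h2⟩
    refine h2.mono ?_
    rintro z ⟨⟨hz, hz1, -⟩, hz2⟩
    exact ⟨hz, hz1, hz2⟩
  let N : Set ℝ := (⋃ q, BR q) ∪ ⋃ q, BL q
  have hN : N.Countable := (countable_iUnion hBR).union (countable_iUnion hBL)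
  let X₂ : Set ℝ := X₁ \ N
  have hunc : ∀ s : Set ℝ, ¬ (X₁ ∩ s).Countable → #(X₂ ∩ s : Set ℝ) = ℵ₁ := by
    intro s hs
    apply le_antisymm
    · rw [← hc]
      exact mk_le_mk_of_subset (fun z hz => hz.1.1)
    · apply al1_le
      intro h
      apply hs
      refine (h.union hN).mono ?_
      rintro z ⟨hz1, hz2⟩
      by_cases hzN : z ∈ N
      · exact Or.inr hzN
      · exact Or.inl ⟨⟨hz1, hzN⟩, hz2⟩
  have hright : ∀ y ∈ X₂, ∀ b : ℝ, y < b → ¬ (X₁ ∩ Ioo y b).Countable := by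
    intro y hy b hb hcc
    obtain ⟨q, h1, h2⟩ := exists_rat_btwn hb
    exact hy.2 (Or.inl (mem_iUnion.2 ⟨q, hy.1, h1,
      hcc.mono (inter_subset_inter_right _ (Ioo_subset_Ioo_right h2.le))⟩))
  have hleft : ∀ y ∈ X₂, ∀ b : ℝ, b < y → ¬ (X₁ ∩ Ioo b y).Countable := by
    intro y hy b hb hcc
    obtain ⟨q, h1, h2⟩ := exists_rat_btwn hb
    exact hy.2 (Or.inr (mem_iUnion.2 ⟨q, hy.1, h2,
      hcc.mono (inter_subset_inter_right _ (Ioo_subset_Ioo_left h1.le))⟩))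
  have hex : ∀ s : Set ℝ, ¬ (X₁ ∩ s).Countable → (X₂ ∩ s).Nonempty := by
    intro s hs
    rw [Set.nonempty_iff_ne_empty]
    intro h
    have := hunc s hs
    rw [h, mk_eq_zero] at this
    exact (Cardinal.aleph_pos 1).ne this
  have i1 : DenselyOrdered X₂ := ⟨fun a b h => by
    obtain ⟨c, hc1, hc2⟩ := hex _ (hright a a.2 b h)
    exact ⟨⟨c, hc1⟩, hc2.1, hc2.2⟩⟩
  have i2 : NoMinOrder X₂ := ⟨fun a => by
    obtain ⟨c, hc1, hc2⟩ := hex _ (hleft a a.2 (a - 1) (by linarith))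
    exact ⟨⟨c, hc1⟩, hc2.2⟩⟩
  have i3 : NoMaxOrder X₂ := ⟨fun a => by
    obtain ⟨c, hc1, hc2⟩ := hex _ (hright a a.2 (a + 1) (by linarith))
    exact ⟨⟨c, hc1⟩, hc2.1⟩⟩
  have i4 : Nonempty X₂ := by
    obtain ⟨c, hc1, -⟩ := hex univ (by rw [inter_univ]; exact al1_unc hc)
    exact ⟨⟨c, hc1⟩⟩
  classical
  let pick : ℚ × ℚ → X₂ := fun p =>
    if h : ∃ c : X₂, (p.1 : ℝ) < c ∧ (c : ℝ) < p.2 then h.choose else Classical.arbitrary _
  obtain ⟨Y, hY, ⟨e⟩⟩ := exists_real_iso (I := X₂) (range pick) (countable_range _) (by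
    intro a b hab
    obtain ⟨c, hc1, hc2⟩ := exists_between hab
    obtain ⟨p, hp1, hp2⟩ := exists_rat_btwn (show (a : ℝ) < c from hc1)
    obtain ⟨q, hq1, hq2⟩ := exists_rat_btwn (show (c : ℝ) < b from hc2)
    have h : ∃ c : X₂, (p : ℝ) < c ∧ (c : ℝ) < q := ⟨c, hp2, hq1⟩
    refine ⟨pick (p, q), ⟨_, rfl⟩, ?_⟩
    simp only [pick, dif_pos h]
    exact ⟨hp1.trans h.choose_spec.1, h.choose_spec.2.trans hq2⟩) (by
    intro a b hab
    rw [← hunc _ (hright a a.2 b hab)]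
    refine Cardinal.mk_congr ⟨fun x => ⟨x.1, x.1.2, x.2⟩, fun x => ⟨⟨x.1, x.2.1⟩, x.2.2⟩,
      fun x => rfl, fun x => rfl⟩)
  obtain ⟨e'⟩ := hBA X₀ Y hX₀ hY
  refine ⟨fun x => ⟨(e.symm (e' x) : X₂), hX₁ (e.symm (e' x)).2.1⟩, ?_⟩
  intro x y h
  exact e.symm.strictMono (e'.strictMono h)

theorem exists_denseReals : ∃ X : Set ℝ, DenseReals X := by
  obtain ⟨X, hX, -⟩ := Pool.Agent.R591.PL.exists_plastic
  exact ⟨X, fun a b hab => hX _ isOpen_Ioo (nonempty_Ioo.2 hab)⟩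

theorem mk_denseReals {X : Set ℝ} (hX : DenseReals X) : #X = ℵ₁ := by
  apply le_antisymm
  · have h : X = ⋃ n : ℕ, X ∩ Ioo (-(n : ℝ) - 1) (n + 1) := by
      ext x
      simp only [mem_iUnion, mem_inter_iff, mem_Ioo]
      constructor
      · intro hx
        obtain ⟨n, hn⟩ := exists_nat_gt |x|
        rw [abs_lt] at hn
        exact ⟨n, hx, by linarith, by linarith⟩
      · rintro ⟨n, hx, -⟩
        exact hx
    rw [h]
    refine (Cardinal.mk_iUnion_le_sum_mk).trans ?_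
    have h2 : ∀ n : ℕ, #(X ∩ Ioo (-(n : ℝ) - 1) (n + 1) : Set ℝ) = ℵ₁ := fun n =>
      hX _ _ (by have := n.cast_nonneg (α := ℝ); linarith)
    rw [show (fun n : ℕ => #(X ∩ Ioo (-(n : ℝ) - 1) (n + 1) : Set ℝ)) = fun _ => ℵ₁ from
      funext h2]
    simp
  · rw [← hX 0 1 one_pos]
    exact mk_le_mk_of_subset inter_subset_left

theorem inClass_real {X : Set ℝ} (hX : DenseReals X) : InClass X := by
  have hcard : ∀ a b : X, a < b → #(Ioo a b) = ℵ₁ := by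
    intro a b hab
    rw [← hX a b hab]
    exact Cardinal.mk_congr ⟨fun x => ⟨x.1, x.1.2, x.2⟩, fun x => ⟨⟨x.1, x.2.1⟩, x.2.2⟩,
      fun x => rfl, fun x => rfl⟩
  have hex : ∀ a b : ℝ, a < b → ∃ x : X, a < x ∧ (x : ℝ) < b := by
    intro a b hab
    have h1 : #(X ∩ Ioo a b : Set ℝ) ≠ 0 := by
      rw [hX a b hab]
      exact (Cardinal.aleph_pos 1).ne'
    obtain ⟨c, hc⟩ := Cardinal.mk_ne_zero_iff.1 h1
    exact ⟨⟨c, hc.1⟩, hc.2⟩
  refine ⟨⟨?_, hcard⟩, ?_⟩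
  · obtain ⟨x, hx1, hx2⟩ := hex 0 1 one_pos
    obtain ⟨y, hy1, hy2⟩ := hex 1 2 one_lt_two
    exact ⟨x, y, hx2.trans hy1⟩
  · intro x
    constructor
    · intro _ _
      have step : ∀ (n : ℕ) (y : {y : X // y < x}), ∃ z : {z : X // z < x}, y < z ∧
          ((x : ℝ) - 1 / (n + 1)) < (z : X) := by
        intro n y
        obtain ⟨z, h1, h2⟩ := hex (max (y : X) ((x : ℝ) - 1 / (n + 1))) x (max_lt y.2 (by
          have : (0 : ℝ) < 1 / (n + 1) := by positivity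
          linarith))
        exact ⟨⟨z, h2⟩, show ((y : X) : ℝ) < z from (le_max_left _ _).trans_lt h1,
          (le_max_right _ _).trans_lt h1⟩
      choose f hf1 hf2 using step
      obtain ⟨y₀, -, hy₀⟩ := hex ((x : ℝ) - 1) x (by linarith)
      let s : ℕ → {y : X // y < x} := fun n => Nat.rec ⟨y₀, hy₀⟩ (fun n y => f n y) n
      have hs : StrictMono s := strictMono_nat_of_lt_succ fun n => hf1 n (s n)
      refine ⟨fun n => (s n).1, fun n m h => Subtype.coe_lt_coe.2 (hs h), ?_, ?_⟩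
      · rintro _ ⟨n, rfl⟩
        exact (s n).2.le
      · intro b hb
        by_contra hlt
        push Not at hlt
        have hlt' : (0 : ℝ) < (x : ℝ) - b := sub_pos.2 hlt
        obtain ⟨n, hn⟩ := exists_nat_one_div_lt hlt'
        have h3 : ((s (n + 1) : X) : ℝ) ≤ b := hb ⟨n + 1, rfl⟩
        have h4 := hf2 n (s n)
        change ((x : ℝ) - 1 / (n + 1)) < ((s (n + 1) : X) : ℝ) at h4
        linarith
    · intro _ _
      have step : ∀ (n : ℕ) (y : {y : X // x < y}), ∃ z : {z : X // x < z}, z < y ∧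
          (((z : X) : ℝ) < (x : ℝ) + 1 / (n + 1)) := by
        intro n y
        obtain ⟨z, h1, h2⟩ := hex x (min (y : X) ((x : ℝ) + 1 / (n + 1))) (lt_min y.2 (by
          have : (0 : ℝ) < 1 / (n + 1) := by positivity
          linarith))
        exact ⟨⟨z, h1⟩, show (z : ℝ) < ((y : X) : ℝ) from h2.trans_le (min_le_left _ _),
          h2.trans_le (min_le_right _ _)⟩
      choose f hf1 hf2 using step
      obtain ⟨y₀, hy₀, -⟩ := hex (x : ℝ) (x + 1) (by linarith)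
      let s : ℕ → {y : X // x < y} := fun n => Nat.rec ⟨y₀, hy₀⟩ (fun n y => f n y) n
      have hs : StrictAnti s := strictAnti_nat_of_succ_lt fun n => hf1 n (s n)
      refine ⟨fun n => (s n).1, fun n m h => Subtype.coe_lt_coe.2 (hs h), ?_, ?_⟩
      · rintro _ ⟨n, rfl⟩
        exact (s n).2.le
      · intro b hb
        by_contra hlt
        push Not at hlt
        have hlt' : (0 : ℝ) < (b : ℝ) - x := sub_pos.2 hlt
        obtain ⟨n, hn⟩ := exists_nat_one_div_lt hlt'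
        have h3 : (b : ℝ) ≤ ((s (n + 1) : X) : ℝ) := hb ⟨n + 1, rfl⟩
        have h4 := hf2 n (s n)
        change ((s (n + 1) : X) : ℝ) < (x : ℝ) + 1 / (n + 1) at h4
        linarith

end Pool.Agent.R591.LB
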