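import Pool.Agent.R591.LB.Defs
import Pool.Agent.R591.BT.Stat

/-!
# The tree of copies of a linear order
-/

set_option autoImplicit false

open Set Cardinal Filter Topology

namespace Pool.Agent.R591.LB

/-! ### the order -/

/-- labels of the children of a node: `(true, n, z)` are to the left of the node,
`(false, n, z)` are to the right -/
abbrev Lb (Z : Type) : Type := Bool × ℕ × Z

abbrev Ky (Z : Type) : Type := ℤ ×ₗ (ℤ ×ₗ WithBot Z)

variable {Z : Type} [LinearOrder Z]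

def key : Lb Z → Ky Z
  | (true, n, z) => toLex (-1, toLex ((n : ℤ), (z : WithBot Z)))
  | (false, n, z) => toLex (1, toLex (-(n : ℤ), (z : WithBot Z)))

def mid : Ky Z := toLex (0, toLex (0, (⊥ : WithBot Z)))

theorem key_inj : Function.Injective (key : Lb Z → Ky Z) := by
  rintro ⟨b, n, z⟩ ⟨b', n', z'⟩ h
  cases b <;> cases b' <;> simp [key, Prod.ext_iff] at h ⊢ <;> exact h

theorem key_true_lt_mid (n : ℕ) (z : Z) : key (true, n, z) < mid := by
  simp [key, mid, Prod.Lex.toLex_lt_toLex]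

theorem mid_lt_key_false (n : ℕ) (z : Z) : mid < key (false, n, z) := by
  simp [key, mid, Prod.Lex.toLex_lt_toLex]

theorem key_lt_mid_iff (d : Lb Z) : key d < mid ↔ d.1 = true := by
  obtain ⟨b, n, z⟩ := d
  cases b
  · simpa using (mid_lt_key_false n z).le
  · simpa using key_true_lt_mid n z

theorem mid_lt_key_iff (d : Lb Z) : mid < key d ↔ d.1 = false := by
  obtain ⟨b, n, z⟩ := d
  cases b
  · simpa using mid_lt_key_false n z
  · simpa using (key_true_lt_mid n z).le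

theorem key_ne_mid (d : Lb Z) : key d ≠ mid := by
  obtain ⟨b, n, z⟩ := d
  cases b
  · exact (mid_lt_key_false n z).ne'
  · exact (key_true_lt_mid n z).ne

theorem key_true_lt (n m : ℕ) (z z' : Z) :
    key (true, n, z) < key (true, m, z') ↔ n < m ∨ n = m ∧ z < z' := by
  simp [key, Prod.Lex.toLex_lt_toLex]

theorem key_false_lt (n m : ℕ) (z z' : Z) :
    key (false, n, z) < key (false, m, z') ↔ m < n ∨ n = m ∧ z < z' := by
  simp [key, Prod.Lex.toLex_lt_toLex]

theorem key_true_lt_false (n m : ℕ) (z z' : Z) :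
    key (true, n, z) < key (false, m, z') := (key_true_lt_mid n z).trans (mid_lt_key_false m z')

variable (Z) in
/-- nodes of the tree -/
def Tr : Type := List (Lb Z)

def code (s : List (Lb Z)) : List (Ky Z) := s.map key ++ [mid]

theorem code_inj : Function.Injective (code : List (Lb Z) → List (Ky Z)) := by
  intro s t h
  exact (List.map_injective_iff.2 key_inj) (List.append_cancel_right h)

noncomputable instance : LinearOrder (Tr Z) := LinearOrder.lift' (fun s : Tr Z => code s) code_inj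

theorem tr_lt (s t : Tr Z) : s < t ↔ code s < code t := Iff.rfl

theorem nil_lt_cons (d : Lb Z) (t : List (Lb Z)) :
    code [] < code (d :: t) ↔ d.1 = false := by
  simp only [code, List.map_nil, List.nil_append, List.map_cons, List.cons_append]
  rw [List.cons_lt_cons_iff, mid_lt_key_iff]
  constructor
  · rintro (h | h)
    · exact h
    · exact absurd h.1.symm (key_ne_mid d)
  · exact Or.inl

theorem cons_lt_nil (d : Lb Z) (t : List (Lb Z)) :
    code (d :: t) < code [] ↔ d.1 = true := by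
  simp only [code, List.map_nil, List.nil_append, List.map_cons, List.cons_append]
  rw [List.cons_lt_cons_iff, key_lt_mid_iff]
  constructor
  · rintro (h | h)
    · exact h
    · exact absurd h.1 (key_ne_mid d)
  · exact Or.inl

theorem cons_lt_cons (d d' : Lb Z) (s t : List (Lb Z)) :
    code (d :: s) < code (d' :: t) ↔ key d < key d' ∨ d = d' ∧ code s < code t := by
  simp only [code, List.map_cons, List.cons_append]
  rw [List.cons_lt_cons_iff]
  constructor
  · rintro (h | h)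
    · exact Or.inl h
    · exact Or.inr ⟨key_inj h.1, h.2⟩
  · rintro (h | h)
    · exact Or.inl h
    · exact Or.inr ⟨congrArg key h.1, h.2⟩

/-- left child -/
theorem lc_lt (t : List (Lb Z)) (n : ℕ) (z : Z) : code (t ++ [(true, n, z)]) < code t := by
  induction t with
  | nil => exact (cons_lt_nil _ _).2 rfl
  | cons d t ih => exact (cons_lt_cons _ _ _ _).2 (Or.inr ⟨rfl, ih⟩)

theorem lt_rc (t : List (Lb Z)) (n : ℕ) (z : Z) : code t < code (t ++ [(false, n, z)]) := by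
  induction t with
  | nil => exact (nil_lt_cons _ _).2 rfl
  | cons d t ih => exact (cons_lt_cons _ _ _ _).2 (Or.inr ⟨rfl, ih⟩)

theorem lt_lc (s t : List (Lb Z)) (h : code s < code t) :
    ∃ n, ∀ m, n ≤ m → ∀ z, code s < code (t ++ [(true, m, z)]) := by
  induction t generalizing s with
  | nil =>
    cases s with
    | nil => exact absurd h (lt_irrefl _)
    | cons d s =>
      rw [cons_lt_nil] at h
      obtain ⟨b, k, w⟩ := d
      simp only at h
      subst h
      exact ⟨k + 1, fun m hm z => (cons_lt_cons _ _ _ _).2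
        (Or.inl ((key_true_lt _ _ _ _).2 (Or.inl (by omega))))⟩
  | cons d t ih =>
    cases s with
    | nil =>
      rw [nil_lt_cons] at h
      exact ⟨0, fun m _ z => (nil_lt_cons _ _).2 h⟩
    | cons d' s =>
      rw [cons_lt_cons] at h
      rcases h with h | ⟨rfl, h⟩
      · exact ⟨0, fun m _ z => (cons_lt_cons _ _ _ _).2 (Or.inl h)⟩
      · obtain ⟨n, hn⟩ := ih s h
        exact ⟨n, fun m hm z => (cons_lt_cons _ _ _ _).2 (Or.inr ⟨rfl, hn m hm z⟩)⟩

theorem rc_lt (s t : List (Lb Z)) (h : code t < code s) :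
    ∃ n, ∀ m, n ≤ m → ∀ z, code (t ++ [(false, m, z)]) < code s := by
  induction t generalizing s with
  | nil =>
    cases s with
    | nil => exact absurd h (lt_irrefl _)
    | cons d s =>
      rw [nil_lt_cons] at h
      obtain ⟨b, k, w⟩ := d
      simp only at h
      subst h
      exact ⟨k + 1, fun m hm z => (cons_lt_cons _ _ _ _).2
        (Or.inl ((key_false_lt _ _ _ _).2 (Or.inl (by omega))))⟩
  | cons d t ih =>
    cases s with
    | nil =>
      rw [cons_lt_nil] at h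
      exact ⟨0, fun m _ z => (cons_lt_nil _ _).2 h⟩
    | cons d' s =>
      rw [cons_lt_cons] at h
      rcases h with h | ⟨rfl, h⟩
      · exact ⟨0, fun m _ z => (cons_lt_cons _ _ _ _).2 (Or.inl h)⟩
      · obtain ⟨n, hn⟩ := ih s h
        exact ⟨n, fun m hm z => (cons_lt_cons _ _ _ _).2 (Or.inr ⟨rfl, hn m hm z⟩)⟩

theorem append_lt (t : List (Lb Z)) (d d' : Lb Z) (h : key d < key d') :
    code (t ++ [d]) < code (t ++ [d']) := by
  induction t with
  | nil => exact (cons_lt_cons _ _ _ _).2 (Or.inl h)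
  | cons e t ih => exact (cons_lt_cons _ _ _ _).2 (Or.inr ⟨rfl, ih⟩)

/-! ### the order is in the class -/

def ch (t : Tr Z) (d : Lb Z) : Tr Z := (show List (Lb Z) from t) ++ [d]

theorem ch_left_lt (t : Tr Z) (n : ℕ) (z : Z) : ch t (true, n, z) < t := lc_lt _ _ _

theorem lt_ch_right (t : Tr Z) (n : ℕ) (z : Z) : t < ch t (false, n, z) := lt_rc _ _ _

theorem lt_ch_left {s t : Tr Z} (h : s < t) : ∃ n, ∀ m, n ≤ m → ∀ z, s < ch t (true, m, z) :=
  lt_lc _ _ h

theorem ch_right_lt {s t : Tr Z} (h : t < s) : ∃ n, ∀ m, n ≤ m → ∀ z, ch t (false, m, z) < s :=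
  rc_lt _ _ h

theorem ch_lt_ch (t : Tr Z) {d d' : Lb Z} (h : key d < key d') : ch t d < ch t d' :=
  append_lt _ _ _ h

theorem mk_Tr (hZ : #Z = ℵ₁) : #(Tr Z) = ℵ₁ := by
  have h1 : #(Lb Z) = ℵ₁ := by
    simp only [mk_prod, lift_id, hZ, mk_bool, mk_nat]
    rw [Cardinal.aleph0_mul_aleph]
    exact Cardinal.mul_eq_right (Cardinal.aleph0_le_aleph 1)
      ((Cardinal.natCast_lt_aleph0 (n := 2)).le.trans (Cardinal.aleph0_le_aleph 1)) two_ne_zero
  have : Infinite (Lb Z) := Cardinal.infinite_iff.2 (by rw [h1]; exact Cardinal.aleph0_le_aleph 1)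
  show #(List (Lb Z)) = ℵ₁
  rw [Cardinal.mk_list_eq_mk, h1]

theorem inClass_Tr (hZ : #Z = ℵ₁) : InClass (Tr Z) := by
  have hne : Nonempty Z := by
    rw [← Cardinal.mk_ne_zero_iff, hZ]
    exact (Cardinal.aleph_pos 1).ne'
  obtain ⟨z₀⟩ := hne
  refine ⟨⟨⟨_, _, ch_left_lt (Z := Z) ([] : List (Lb Z)) 0 z₀⟩, ?_⟩, ?_⟩
  · intro s t hst
    apply le_antisymm
    · calc #(Ioo s t) ≤ #(Tr Z) := mk_set_le _
        _ = ℵ₁ := mk_Tr hZ
    · obtain ⟨n, hn⟩ := lt_ch_left hst
      rw [← hZ]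
      refine Cardinal.mk_le_of_injective
        (f := fun z => (⟨ch t (true, n, z), hn n le_rfl z, ch_left_lt _ _ _⟩ : Ioo s t)) ?_
      intro z z' h
      have h := congrArg Subtype.val h
      simp only at h
      by_contra hne
      rcases lt_or_gt_of_ne hne with h2 | h2
      · exact absurd h (ch_lt_ch t ((key_true_lt _ _ _ _).2 (Or.inr ⟨rfl, h2⟩))).ne
      · exact absurd h (ch_lt_ch t ((key_true_lt _ _ _ _).2 (Or.inr ⟨rfl, h2⟩))).ne'
  · intro t
    refine ⟨fun _ _ => ⟨fun n => ch t (true, n, z₀), ?_, ?_⟩,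
      fun _ _ => ⟨fun n => ch t (false, n, z₀), ?_, ?_⟩⟩
    · intro n m h
      exact ch_lt_ch t ((key_true_lt _ _ _ _).2 (Or.inl h))
    · refine ⟨?_, ?_⟩
      · rintro _ ⟨n, rfl⟩
        exact (ch_left_lt _ _ _).le
      · intro s hs
        by_contra hlt
        push Not at hlt
        obtain ⟨n, hn⟩ := lt_ch_left hlt
        exact absurd (hn n le_rfl z₀) (not_lt.2 (hs ⟨n, rfl⟩))
    · intro n m h
      exact ch_lt_ch t ((key_false_lt _ _ _ _).2 (Or.inl h))
    · refine ⟨?_, ?_⟩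
      · rintro _ ⟨n, rfl⟩
        exact (lt_ch_right _ _ _).le
      · intro s hs
        by_contra hlt
        push Not at hlt
        obtain ⟨n, hn⟩ := ch_right_lt hlt
        exact absurd (hn n le_rfl z₀) (not_lt.2 (hs ⟨n, rfl⟩))

/-! ### a criterion for LOTS embeddings -/

theorem lotsEmb_of {A B : Type} [LinearOrder A] [LinearOrder B] (f : A → B) (hf : StrictMono f)
    (h1 : ∀ x, ∀ y < f x, ∃ x' < x, y < f x') (h2 : ∀ x, ∀ y, f x < y → ∃ x', x < x' ∧ f x' < y) :
    LotsEmb A B := by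
  refine ⟨f, hf, ?_⟩
  let : TopologicalSpace A := Preorder.topology A
  let : TopologicalSpace B := Preorder.topology B
  have : OrderTopology A := ⟨rfl⟩
  have : OrderTopology B := ⟨rfl⟩
  show Continuous f
  rw [continuous_iff_continuousAt]
  intro x
  refine tendsto_order.2 ⟨fun y hy => ?_, fun y hy => ?_⟩
  · obtain ⟨x', hx', h⟩ := h1 x y hy
    filter_upwards [Ioi_mem_nhds hx'] with z hz
    exact h.trans (hf hz)
  · obtain ⟨x', hx', h⟩ := h2 x y hy
    filter_upwards [Iio_mem_nhds hx'] with z hz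
    exact (hf hz).trans h

/-! ### embedding the tree -/

/-- There is a copy of `Z × 2` in the open interval `(a, b)` -/
def Cp (L : Type) [LinearOrder L] (Z : Type) [LinearOrder Z] (a b : L) : Prop :=
  ∃ u v : Z → L, (∀ z, a < u z ∧ u z < v z ∧ v z < b) ∧ ∀ z z', z < z' → v z ≤ u z'

variable {L : Type} [LinearOrder L]

theorem InClass.dense (hL : InClass L) {a b : L} (h : a < b) : ∃ c, a < c ∧ c < b := by
  have h1 : #(Ioo a b) ≠ 0 := by
    rw [hL.1.2 a b h]
    exact (Cardinal.aleph_pos 1).ne'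
  obtain ⟨c, hc⟩ := Cardinal.mk_ne_zero_iff.1 h1
  exact ⟨c, hc⟩

theorem InClass.left_seq (hL : InClass L) {l p : L} (h : l < p) :
    ∃ s : ℕ → L, StrictMono s ∧ (∀ n, l < s n ∧ s n < p) ∧ ∀ y < p, ∃ n, y < s n := by
  have hlub : IsLUB (Iio p) p := by
    refine ⟨fun x hx => (mem_Iio.1 hx).le, fun x hx => ?_⟩
    by_contra hlt
    push Not at hlt
    obtain ⟨c, hc1, hc2⟩ := hL.dense hlt
    exact absurd (hx hc2) (not_le.2 hc1)
  obtain ⟨s, hs, hsl⟩ := (hL.2 p).1 ⟨l, h⟩ hlub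
  have hlt : ∀ y < p, ∃ n, y < s n := by
    intro y hy
    by_contra hcon
    push Not at hcon
    exact absurd (hsl.2 (by rintro _ ⟨n, rfl⟩; exact hcon n)) (not_le.2 hy)
  obtain ⟨N, hN⟩ := hlt l h
  refine ⟨fun n => s (N + n), fun n m hnm => hs (by omega), fun n => ⟨?_, ?_⟩, ?_⟩
  · exact hN.trans_le (hs.monotone (by omega))
  · exact (hs (Nat.lt_succ_self _)).trans_le (hsl.1 ⟨_, rfl⟩)
  · intro y hy
    obtain ⟨n, hn⟩ := hlt y hy
    exact ⟨n, hn.trans_le (hs.monotone (by omega))⟩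

theorem InClass.right_seq (hL : InClass L) {p r : L} (h : p < r) :
    ∃ s : ℕ → L, StrictAnti s ∧ (∀ n, p < s n ∧ s n < r) ∧ ∀ y, p < y → ∃ n, s n < y := by
  have hglb : IsGLB (Ioi p) p := by
    refine ⟨fun x hx => (mem_Ioi.1 hx).le, fun x hx => ?_⟩
    by_contra hlt
    push Not at hlt
    obtain ⟨c, hc1, hc2⟩ := hL.dense hlt
    exact absurd (hx hc1) (not_le.2 hc2)
  obtain ⟨s, hs, hsl⟩ := (hL.2 p).2 ⟨r, h⟩ hglb
  have hlt : ∀ y, p < y → ∃ n, s n < y := by
    intro y hy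
    by_contra hcon
    push Not at hcon
    exact absurd (hsl.2 (by rintro _ ⟨n, rfl⟩; exact hcon n)) (not_le.2 hy)
  obtain ⟨N, hN⟩ := hlt r h
  refine ⟨fun n => s (N + n), fun n m hnm => hs (by omega), fun n => ⟨?_, ?_⟩, ?_⟩
  · exact (hsl.1 ⟨_, rfl⟩ : p ≤ s (N + n + 1)).trans_lt (hs (Nat.lt_succ_self _))
  · exact (hs.antitone (by omega)).trans_lt hN
  · intro y hy
    obtain ⟨n, hn⟩ := hlt y hy
    exact ⟨n, (hs.antitone (by omega)).trans_lt hn⟩

/-- states: an interval and a point in it -/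
abbrev St (a₀ b₀ : L) : Type := {x : L × L × L // a₀ ≤ x.1 ∧ x.1 < x.2.1 ∧ x.2.1 < x.2.2 ∧ x.2.2 ≤ b₀}

theorem exists_step (hL : InClass L) {a₀ b₀ : L}
    (hZ : ∀ a b, a₀ ≤ a → a < b → b ≤ b₀ → Cp L Z a b) (σ : St a₀ b₀) :
    ∃ c : Lb Z → St a₀ b₀,
      (∀ d, σ.1.1 ≤ (c d).1.1 ∧ (c d).1.2.2 ≤ σ.1.2.2) ∧
      (∀ d, d.1 = true → (c d).1.2.2 < σ.1.2.1) ∧
      (∀ d, d.1 = false → σ.1.2.1 < (c d).1.1) ∧
      (∀ d d', key d < key d' → (c d).1.2.2 ≤ (c d').1.1) ∧
      (∀ y < σ.1.2.1, ∃ n, ∀ z, y < (c (true, n, z)).1.1) ∧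
      (∀ y, σ.1.2.1 < y → ∃ n, ∀ z, (c (false, n, z)).1.2.2 < y) := by
  obtain ⟨⟨l, p, r⟩, h1, h2, h3, h4⟩ := σ
  simp only at h1 h2 h3 h4
  obtain ⟨α, hα, hαb, hαc⟩ := hL.left_seq h2
  obtain ⟨β, hβ, hβb, hβc⟩ := hL.right_seq h3
  have A : ∀ n, ∃ u v : Z → L, (∀ z, α n < u z ∧ u z < v z ∧ v z < α (n + 1)) ∧
      ∀ z z', z < z' → v z ≤ u z' := fun n =>
    hZ _ _ (h1.trans (hαb n).1.le) (hα (Nat.lt_succ_self n))
      (((hαb _).2.le.trans h3.le).trans h4)
  have B : ∀ n, ∃ u v : Z → L, (∀ z, β (n + 1) < u z ∧ u z < v z ∧ v z < β n) ∧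
      ∀ z z', z < z' → v z ≤ u z' := fun n =>
    hZ _ _ ((h1.trans h2.le).trans (hβb _).1.le) (hβ (Nat.lt_succ_self n))
      ((hβb _).2.le.trans h4)
  choose u v huv hdis using A
  choose u' v' huv' hdis' using B
  have C : ∀ n z, ∃ m, u n z < m ∧ m < v n z := fun n z => hL.dense (huv n z).2.1
  have C' : ∀ n z, ∃ m, u' n z < m ∧ m < v' n z := fun n z => hL.dense (huv' n z).2.1
  choose m hm using C
  choose m' hm' using C'
  have hbd : ∀ n z, l < u n z ∧ v n z < p := fun n z =>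
    ⟨(hαb n).1.trans (huv n z).1, (huv n z).2.2.trans (hαb _).2⟩
  have hbd' : ∀ n z, p < u' n z ∧ v' n z < r := fun n z =>
    ⟨(hβb _).1.trans (huv' n z).1, (huv' n z).2.2.trans (hβb _).2⟩
  let c : Lb Z → St a₀ b₀ := fun d => match d with
    | (true, n, z) => ⟨(u n z, m n z, v n z), h1.trans (hbd n z).1.le, (hm n z).1, (hm n z).2,
        ((hbd n z).2.le.trans h3.le).trans h4⟩
    | (false, n, z) => ⟨(u' n z, m' n z, v' n z), (h1.trans h2.le).trans (hbd' n z).1.le,
        (hm' n z).1, (hm' n z).2, (hbd' n z).2.le.trans h4⟩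
  refine ⟨c, ?_, ?_, ?_, ?_, ?_, ?_⟩
  · rintro ⟨b, n, z⟩
    cases b
    · exact ⟨(h2.trans (hbd' n z).1).le, (hbd' n z).2.le⟩
    · exact ⟨(hbd n z).1.le, ((hbd n z).2.trans h3).le⟩
  · rintro ⟨b, n, z⟩ hb
    simp only at hb
    subst hb
    exact (hbd n z).2
  · rintro ⟨b, n, z⟩ hb
    simp only at hb
    subst hb
    exact (hbd' n z).1
  · rintro ⟨b, n, z⟩ ⟨b', n', z'⟩ h
    cases b <;> cases b'
    · rw [key_false_lt] at h
      show v' n z ≤ u' n' z'
      rcases h with h | ⟨rfl, h⟩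
      · calc v' n z ≤ β n := (huv' n z).2.2.le
          _ ≤ β (n' + 1) := hβ.antitone h
          _ ≤ _ := (huv' n' z').1.le
      · exact hdis' n z z' h
    · exact absurd (h.trans (key_true_lt_mid _ _)) (not_lt.2 (mid_lt_key_false _ _).le)
    · exact ((hbd n z).2.trans (hbd' n' z').1).le
    · rw [key_true_lt] at h
      show v n z ≤ u n' z'
      rcases h with h | ⟨rfl, h⟩
      · calc v n z ≤ α (n + 1) := (huv n z).2.2.le
          _ ≤ α n' := hα.monotone h
          _ ≤ _ := (huv n' z').1.le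
      · exact hdis n z z' h
  · intro y hy
    obtain ⟨n, hn⟩ := hαc y hy
    exact ⟨n, fun z => hn.trans (huv n z).1⟩
  · intro y hy
    obtain ⟨n, hn⟩ := hβc y hy
    exact ⟨n, fun z => (huv' n z).2.2.trans hn⟩

theorem embed_Tr (hL : InClass L) [Nonempty Z] {a₀ b₀ : L} (h0 : a₀ < b₀)
    (hZ : ∀ a b, a₀ ≤ a → a < b → b ≤ b₀ → Cp L Z a b) : LotsEmb (Tr Z) L := by
  choose c c1 c2 c3 c4 c5 c6 using exists_step (Z := Z) hL hZ
  obtain ⟨z₀⟩ := ‹Nonempty Z›
  obtain ⟨p₀, hp1, hp2⟩ := hL.dense h0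
  let σ₀ : St a₀ b₀ := ⟨(a₀, p₀, b₀), le_rfl, hp1, hp2, le_rfl⟩
  let F : St a₀ b₀ → List (Lb Z) → St a₀ b₀ := fun σ s => List.foldl c σ s
  have hF : ∀ (s : List (Lb Z)) (σ : St a₀ b₀), σ.1.1 ≤ (F σ s).1.1 ∧ (F σ s).1.2.2 ≤ σ.1.2.2 := by
    intro s
    induction s with
    | nil => exact fun σ => ⟨le_rfl, le_rfl⟩
    | cons d s ih => exact fun σ => ⟨(c1 σ d).1.trans (ih _).1, (ih _).2.trans (c1 σ d).2⟩
  have hmono : ∀ (s t : List (Lb Z)) (σ : St a₀ b₀), code s < code t →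
      (F σ s).1.2.1 < (F σ t).1.2.1 := by
    intro s
    induction s with
    | nil =>
      intro t σ h
      cases t with
      | nil => exact absurd h (lt_irrefl _)
      | cons d t =>
        rw [nil_lt_cons] at h
        calc σ.1.2.1 < (c σ d).1.1 := c3 σ d h
          _ ≤ (F (c σ d) t).1.1 := (hF t _).1
          _ < _ := (F (c σ d) t).2.2.1
    | cons d s ih =>
      intro t σ h
      cases t with
      | nil =>
        rw [cons_lt_nil] at h
        calc (F (c σ d) s).1.2.1 < (F (c σ d) s).1.2.2 := (F (c σ d) s).2.2.2.1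
          _ ≤ (c σ d).1.2.2 := (hF s _).2
          _ < _ := c2 σ d h
      | cons d' t =>
        rw [cons_lt_cons] at h
        rcases h with h | ⟨rfl, h⟩
        · calc (F (c σ d) s).1.2.1 < (F (c σ d) s).1.2.2 := (F (c σ d) s).2.2.2.1
            _ ≤ (c σ d).1.2.2 := (hF s _).2
            _ ≤ (c σ d').1.1 := c4 σ _ _ h
            _ ≤ (F (c σ d') t).1.1 := (hF t _).1
            _ < _ := (F (c σ d') t).2.2.1
        · exact ih t (c σ d) h
  have hch : ∀ (t : List (Lb Z)) (d : Lb Z), F σ₀ (t ++ [d]) = c (F σ₀ t) d := by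
    intro t d
    simp [F, List.foldl_append]
  refine lotsEmb_of (fun t : Tr Z => (F σ₀ t).1.2.1) (fun s t h => hmono s t σ₀ h) ?_ ?_
  · intro (t : List (Lb Z)) y hy
    obtain ⟨n, hn⟩ := c5 (F σ₀ t) y hy
    refine ⟨ch t (true, n, z₀), ch_left_lt _ _ _, ?_⟩
    have h1 := hch t (true, n, z₀)
    show y < (F σ₀ (t ++ [(true, n, z₀)])).1.2.1
    rw [h1]
    exact (hn z₀).trans (c (F σ₀ t) (true, n, z₀)).2.2.1
  · intro (t : List (Lb Z)) y hy
    obtain ⟨n, hn⟩ := c6 (F σ₀ t) y hy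
    refine ⟨ch t (false, n, z₀), lt_ch_right _ _ _, ?_⟩
    have h1 := hch t (false, n, z₀)
    show (F σ₀ (t ++ [(false, n, z₀)])).1.2.1 < y
    rw [h1]
    exact (c (F σ₀ t) (false, n, z₀)).2.2.2.1.trans (hn z₀)

end Pool.Agent.R591.LB
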